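import Pool.Agent.Helper8.SPV.Stmts
import Pool.Agent.Helper8.SPV.PLib

/-! # Module CORR: corrected derivations are regular at all places -/

set_option autoImplicit false

namespace Pool.Agent.Helper8.SPV

theorem st_CORR (hPL1 : ST_PL1) (hREG : ST_REG) (hEINF : ST_EINF) (hDER1 : ST_DER1) :
    ST_CORR := by
  intro k0 k K _ _ _ _ _ _ _ _ _ b T W d hFF hE hT p
  have hp : p.Laws := hPL1 k K hFF p
  have : CharZero K := charZero_of_injective_algebraMap (algebraMap k K).injective
  have hW0 : W ≠ 0 := by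
    rintro rfl
    apply hT
    refine ⟨Polynomial.X ^ 3 + 1, ?_, ?_⟩
    · intro h0
      have := congrArg (Polynomial.eval 0) h0
      simp at this
    · simp only [map_add, map_pow, Polynomial.aeval_X, map_one]
      rw [← hE]
      ring
  have hδ : d.δ ≠ 0 := by
    intro h0
    have h1 := d.δT
    rw [h0, Derivation.zero_apply] at h1
    exact mul_ne_zero two_ne_zero hW0 h1.symm
  have hz : d.δ p.z ≠ 0 :=
    ((hDER1 k K hFF).2.2.2 d.δ hδ p p.z (by rw [hp.ord_z]; exact one_ne_zero)).1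
  -- the two corrected derivations
  have hA : ∀ f ∈ p.O, (d.δ p.z)⁻¹ * d.δ f ∈ p.O := by
    intro f hf
    refine hREG k K hFF p (((d.δ p.z)⁻¹ • d.δ).restrictScalars ℤ) p.z ?_ hp.unif ?_ f hf
    · intro c
      show (d.δ p.z)⁻¹ * d.δ (algebraMap k K c) ∈ p.O
      rw [Derivation.map_algebraMap, mul_zero]
      exact p.O.zero_mem
    · show (d.δ p.z)⁻¹ * d.δ p.z ∈ p.O
      rw [inv_mul_cancel₀ hz]
      exact p.O.one_mem
  have hB : ∀ j, ∀ f ∈ p.O, d.D j f - d.D j p.z / d.δ p.z * d.δ f ∈ p.O := by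
    intro j f hf
    refine hREG k K hFF p ((d.D j).restrictScalars ℤ -
      (((d.D j p.z / d.δ p.z) • d.δ).restrictScalars ℤ)) p.z ?_ hp.unif ?_ f hf
    · intro c
      show d.D j (algebraMap k K c) - d.D j p.z / d.δ p.z * d.δ (algebraMap k K c) ∈ p.O
      rw [Derivation.map_algebraMap, mul_zero, sub_zero]
      obtain ⟨c', hc'⟩ := d.Dk j c
      rw [hc']
      exact p.mem c'
    · show d.D j p.z - d.D j p.z / d.δ p.z * d.δ p.z ∈ p.O
      rw [div_mul_cancel₀ _ hz, sub_self]
      exact p.O.zero_mem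
  -- it suffices to find an element `s` with `δ s` a unit and `D_j s = 0`
  have key : (∃ s ∈ p.O, p.U (d.δ s) ∧ ∀ j, d.D j s = 0) →
      (d.δ p.z)⁻¹ ∈ p.O ∧ ∀ j, d.D j p.z / d.δ p.z ∈ p.O := by
    rintro ⟨s, hs, ⟨hu0, -, hu⟩, hD⟩
    constructor
    · have h1 := p.O.mul_mem _ _ (hA s hs) hu
      rwa [mul_assoc, mul_inv_cancel₀ hu0, mul_one] at h1
    · intro j
      have h1 := hB j s hs
      rw [hD j, zero_sub] at h1
      have h2 := p.O.mul_mem _ _ (p.O.neg_mem _ h1) hu
      rwa [neg_neg, mul_assoc, mul_inv_cancel₀ hu0, mul_one] at h2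
  have hs : ∃ s ∈ p.O, p.U (d.δ s) ∧ ∀ j, d.D j s = 0 := by
    by_cases hTO : T ∈ p.O
    · have hWO : W ∈ p.O := by
        rcases p.O.mem_or_inv_mem W with h | h
        · exact h
        · have h1 : W ^ 2 ∈ p.O := by
            rw [hE]
            exact p.O.add_mem _ _ (pow_mem hTO 3) p.O.one_mem
          have h2 := p.O.mul_mem _ _ h1 h
          rwa [pow_two, mul_assoc, mul_inv_cancel₀ hW0, mul_one] at h2
      have hconst : ∀ (c : k) (f : K), c ≠ 0 → p.U f → p.U (algebraMap k K c * f) := by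
        intro c f hc hf
        rw [hp.U_iff] at hf ⊢
        exact ⟨mul_ne_zero ((map_ne_zero _).2 hc) hf.1, by rw [hp.ord_const_mul c hc]; exact hf.2⟩
      by_cases hWU : p.U W
      · refine ⟨T, hTO, ?_, d.DT⟩
        rw [d.δT]
        have h1 := hconst 2 W two_ne_zero hWU
        rwa [map_ofNat] at h1
      · -- `T` is a unit
        have hWM : 0 < p.ord W := by
          have h1 : 0 ≤ p.ord W := (hp.mem_iff W hW0).1 hWO
          rw [hp.U_iff] at hWU
          push Not at hWU
          exact lt_of_le_of_ne h1 (Ne.symm (hWU hW0))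
        have hT0 : T ≠ 0 := by
          rintro rfl
          have h1 := congrArg p.ord hE
          rw [hp.ord_pow] at h1
          simp only [ne_eq, OfNat.ofNat_ne_zero, not_false_eq_true, zero_pow, zero_add,
            hp.ord_one] at h1
          push_cast at h1
          omega
        have hTU : p.ord T = 0 := by
          by_contra hne
          have h1 : 0 ≤ p.ord T := (hp.mem_iff T hT0).1 hTO
          have h2 : p.Ge 1 (W ^ 2 - T ^ 3) := by
            refine hp.ge_sub (Or.inr ?_) (Or.inr ?_)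
            · rw [hp.ord_pow]; push_cast; omega
            · rw [hp.ord_pow]; push_cast; omega
          rw [hE, add_sub_cancel_left, hp.ge_iff _ _ one_ne_zero, hp.ord_one] at h2
          omega
        refine ⟨W, hWO, ?_, d.DW⟩
        rw [d.δW]
        have h1 := hconst 3 (T ^ 2) three_ne_zero
          ((hp.U_iff _).2 ⟨pow_ne_zero _ hT0, by rw [hp.ord_pow, hTU, mul_zero]⟩)
        rwa [map_ofNat] at h1
    · obtain ⟨e, he, -, -, hTW, -, hU, -⟩ :=
        hEINF k K b T W d.δ hFF hE hT d.δT d.δW p hTO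
      have hTO0 : T ≠ 0 := by
        rintro rfl
        exact hTO p.O.zero_mem
      refine ⟨T / W, (hp.mem_iff _ (div_ne_zero hTO0 hW0)).2 (by omega), hU, fun j => ?_⟩
      rw [div_eq_mul_inv, Derivation.leibniz, Derivation.leibniz_inv, d.DT, d.DW]
      simp
  obtain ⟨h1, h2⟩ := key hs
  refine ⟨hz, h1, ?_, hA, fun j => ⟨h2 j, hB j⟩⟩
  have h3 := (hp.mem_iff _ (inv_ne_zero hz)).1 h1
  rw [hp.ord_inv] at h3
  exact h3

end Pool.Agent.Helper8.SPV
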