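import Pool.Agent.Helper8.SPV.Stmts2

/-! # Module ELD: the derivations `Df`, `Ds` exist -/

set_option autoImplicit false

namespace Pool.Agent.Helper8.SPV

theorem st_ELD (hD : ST_DEREXT) : ST_ELD := by
  intro F L _ _ _ _ q x y h δ0
  have : CharZero L := charZero_of_injective_algebraMap (algebraMap F L).injective
  have hy : y ≠ 0 := by
    rintro rfl
    apply h.tr
    refine ⟨Polynomial.X ^ 3 + Polynomial.X + Polynomial.C q, ?_, ?_⟩
    · intro h0
      have h1 := congrArg (fun p => Polynomial.coeff p 3) h0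
      simp [Polynomial.coeff_X] at h1
    · simp only [map_add, map_pow, Polynomial.aeval_X, Polynomial.aeval_C]
      rw [← h.eq]
      ring
  have h2y : (2 : L) * y ≠ 0 := mul_ne_zero two_ne_zero hy
  have hdiff : ∀ D : Derivation ℤ L L, 2 * y * D y =
      (3 * x ^ 2 + 1) * D x + D (algebraMap F L q) := by
    intro D
    have h1 := congrArg D h.eq
    rw [pow_two, Derivation.leibniz, map_add, map_add, Derivation.leibniz_pow] at h1
    simp only [smul_eq_mul, nsmul_eq_mul, Nat.cast_ofNat] at h1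
    linear_combination h1
  obtain ⟨Df, hDf, hDfx⟩ := (hD F L 0).2 x h.tr (2 * y)
  obtain ⟨Ds, hDs, hDsx⟩ := (hD F L ((Algebra.linearMap F L).compDer δ0)).2 x h.tr
    (-algebraMap F L (δ0 q * 6 / (4 + 27 * q ^ 2)) *
    (x ^ 2 - algebraMap F L (3 / 2 * q) * x + algebraMap F L (2 / 3)))
  have hDf' : ∀ c, Df (algebraMap F L c) = 0 := fun c => by
    rw [hDf, Derivation.zero_apply]
  have hDs' : ∀ c, Ds (algebraMap F L c) = algebraMap F L (δ0 c) := fun c => by
    rw [hDs]; rfl
  refine ⟨Df, Ds, hDf', hDfx, ?_, hDs', hDsx, ?_⟩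
  · apply mul_left_cancel₀ h2y
    rw [hdiff, hDf', hDfx, add_zero]
    ring
  · apply mul_left_cancel₀ h2y
    rw [hdiff, hDs', hDsx]
    have hdisc : (4 + 27 * (algebraMap F L q) ^ 2 : L) ≠ 0 := by
      intro h0
      apply h.disc
      apply (algebraMap F L).injective
      rw [map_add, map_mul, map_pow, map_ofNat, map_ofNat, map_zero]
      exact h0
    simp only [map_div₀, map_mul, map_add, map_pow, map_ofNat]
    have hyy := h.eq
    generalize algebraMap F L q = Q at hyy hdisc ⊢
    generalize algebraMap F L (δ0 q) = c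
    have e1 : 2 * y * (c * 3 / (4 + 27 * Q ^ 2) * (-3 * x + 9 / 2 * Q) * y) =
        2 * (c * 3 / (4 + 27 * Q ^ 2) * (-3 * x + 9 / 2 * Q)) * (x ^ 3 + x + Q) := by
      rw [← hyy]; ring
    rw [e1]
    field_simp
    ring

end Pool.Agent.Helper8.SPV
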