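import Pool.Agent.Helper8.SPV.Stmts

/-! # Module G1: genericity -/

set_option autoImplicit false

namespace Pool.Agent.Helper8.SPV

theorem st_G1 (hPD : ST_PD) : ST_G1 := by
  intro k0 k _ _ _ _ _ b hb t1 w1 c hE hQ
  obtain ⟨P, hP⟩ := hPD k0 k b hb
  have h1 : 1 + Qd b t1 * P 0 t1 = 0 := by
    have h2 := congrArg (P 0) hQ
    rw [Derivation.map_algebraMap] at h2
    rw [← h2, Qf, Qd, map_sum, Finset.sum_mul]
    have h3 : ∀ j : Fin 10, P 0 (algebraMap k k (b j) * t1 ^ (j : ℕ)) =
        ((j : ℕ) : k) * algebraMap k k (b j) * t1 ^ ((j : ℕ) - 1) * P 0 t1 +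
          t1 ^ (j : ℕ) * (if j = 0 then 1 else 0) := by
      intro j
      rw [Derivation.leibniz, Derivation.leibniz_pow]
      show b j • _ + t1 ^ (j : ℕ) • P 0 (b j) = _
      rw [hP]
      simp only [smul_eq_mul, nsmul_eq_mul, Algebra.algebraMap_self, RingHom.id_apply]
      ring
    rw [Finset.sum_congr rfl fun j _ => h3 j, Finset.sum_add_distrib]
    simp
    ring
  have hQd : Qd b t1 ≠ 0 := by
    intro h0
    rw [h0, zero_mul, add_zero] at h1
    exact one_ne_zero h1
  have hw : w1 ≠ 0 := by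
    rintro rfl
    have h2 := congrArg (P 0) hE
    rw [zero_pow two_ne_zero, map_zero, map_add, Derivation.leibniz_pow,
      Derivation.map_one_eq_zero, add_zero] at h2
    simp only [smul_eq_mul, nsmul_eq_mul, Nat.cast_ofNat] at h2
    have ht : t1 ≠ 0 := by
      rintro rfl
      norm_num at hE
    have h3 : P 0 t1 = 0 := by
      have h4 : (3 : k) * t1 ^ 2 * P 0 t1 = 0 := by
        rw [mul_assoc]; exact h2.symm
      rcases mul_eq_zero.mp h4 with h5 | h5
      · exact absurd h5 (mul_ne_zero three_ne_zero (pow_ne_zero _ ht))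
      · exact h5
    rw [h3, mul_zero, add_zero] at h1
    exact one_ne_zero h1
  exact mul_ne_zero (mul_ne_zero two_ne_zero hw) hQd

end Pool.Agent.Helper8.SPV
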