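import Pool.Agent.Helper8.SPV.Stmts

/-! # Module LDD: derivations and linear disjointness -/

set_option autoImplicit false

namespace Pool.Agent.Helper8.SPV

open scoped TensorProduct

/-- the ring homomorphism `f ↦ f + ε d f` attached to a derivation of a subfield -/
def LDD_hom {F R : Type} [Field F] [Field R] [Algebra F R] (d : Derivation ℤ F F) :
    F →+* TrivSqZeroExt R R where
  toFun f := TrivSqZeroExt.inl (algebraMap F R f) + TrivSqZeroExt.inr (algebraMap F R (d f))
  map_one' := by
    ext
    · simp
    · simp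
  map_mul' f g := by
    ext
    · simp
    · simp only [Derivation.leibniz, smul_eq_mul, map_add, map_mul, TrivSqZeroExt.snd_add,
        TrivSqZeroExt.snd_inl, TrivSqZeroExt.snd_inr, zero_add, TrivSqZeroExt.snd_mul,
        TrivSqZeroExt.fst_add, TrivSqZeroExt.fst_inl, TrivSqZeroExt.fst_inr, add_zero,
        MulOpposite.smul_eq_mul_unop, MulOpposite.unop_op]
      ring
  map_zero' := by
    ext
    · simp
    · simp
  map_add' f g := by
    ext
    · simp
    · simp only [map_add, TrivSqZeroExt.snd_add, TrivSqZeroExt.snd_inl, TrivSqZeroExt.snd_inr,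
        zero_add]

theorem LDD_inj {k K R : Type} [Field k] [Field K] [Field R] [Algebra k K]
    [Algebra k R] [Algebra K R] [IsScalarTower k K R] (F : IntermediateField k R)
    (hF : ∀ (n : ℕ) (f : Fin n → K), LinearIndependent k f →
      LinearIndependent F fun i => algebraMap K R (f i)) :
    Function.Injective (Algebra.TensorProduct.productLeftAlgHom (Algebra.ofId F R)
      (IsScalarTower.toAlgHom k K R)) := by
  classical
  let b := Module.Basis.ofVectorSpace k K
  have hli : LinearIndependent F (fun i => algebraMap K R (b i)) := by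
    rw [linearIndependent_iff_finset_linearIndependent]
    intro s
    let e := s.equivFin
    have h1 : LinearIndependent k (fun i : Fin s.card => b (e.symm i : _)) :=
      b.linearIndependent.comp _ (Subtype.val_injective.comp e.symm.injective)
    have h2 := (hF _ _ h1).comp e e.injective
    have h3 : ((fun i : Fin s.card => algebraMap K R (b (e.symm i : _))) ∘ e) =
        ((fun i => algebraMap K R (b i)) ∘ (Subtype.val : s → _)) := by
      funext i
      simp
    rw [← h3]
    exact h2
  let B := Algebra.TensorProduct.basis F b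
  rw [injective_iff_map_eq_zero]
  intro x hx
  have h1 : Finsupp.linearCombination F (fun i => algebraMap K R (b i)) (B.repr x) = 0 := by
    rw [← hx]
    conv_rhs => rw [← B.linearCombination_repr x]
    rw [Finsupp.linearCombination_apply, Finsupp.linearCombination_apply, Finsupp.sum,
      Finsupp.sum, map_sum]
    refine Finset.sum_congr rfl fun i _ => ?_
    rw [map_smul, Algebra.TensorProduct.basis_apply,
      Algebra.TensorProduct.lift_tmul]
    simp
  have h2 := (linearIndependent_iff.mp hli) _ h1
  exact B.repr.map_eq_zero_iff.mp h2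

theorem LDD_frac (hD : ST_DEREXT) (T Q R : Type) [CommRing T] [IsDomain T] [Field Q] [Algebra T Q]
    [IsFractionRing T Q] [Field R] [CharZero R] (ψ : T →+* TrivSqZeroExt R R)
    (hψ : ∀ x, (ψ x).fst = 0 → x = 0) :
    ∃ D' : Derivation ℤ R R, ∀ x, D' (ψ x).fst = (ψ x).snd := by
  have hunit : ∀ y : nonZeroDivisors T, IsUnit (ψ y) := by
    intro y
    rw [TrivSqZeroExt.isUnit_iff_isUnit_fst, isUnit_iff_ne_zero]
    intro h0
    exact nonZeroDivisors.ne_zero y.2 (hψ _ h0)
  let Ψ : Q →+* TrivSqZeroExt R R := IsLocalization.lift (M := nonZeroDivisors T) (g := ψ) hunit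
  have hΨ : ∀ x, Ψ (algebraMap T Q x) = ψ x := fun x => IsLocalization.lift_eq hunit x
  let J : Q →+* R := (TrivSqZeroExt.fstHom ℤ R R).toRingHom.comp Ψ
  let _ : Algebra Q R := J.toAlgebra
  have : CharZero Q := ⟨fun m n hmn => by
    have h1 := congrArg J hmn
    rw [map_natCast, map_natCast] at h1
    exact_mod_cast h1⟩
  let D0 : Derivation ℤ Q R := Derivation.mk'
    (AddMonoidHom.toIntLinearMap
      { toFun := fun a => (Ψ a).snd
        map_zero' := by rw [map_zero]; rfl
        map_add' := fun a b => by rw [map_add]; rfl })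
    (by
      intro a b
      show (Ψ (a * b)).snd = J a * (Ψ b).snd + J b * (Ψ a).snd
      rw [map_mul, TrivSqZeroExt.snd_mul, MulOpposite.smul_eq_mul_unop, MulOpposite.unop_op,
        smul_eq_mul, mul_comm (Ψ a).snd]
      rfl)
  obtain ⟨D', hD'⟩ := (hD Q R D0).1
  refine ⟨D', fun x => ?_⟩
  have h1 : (ψ x).fst = algebraMap Q R (algebraMap T Q x) := by
    show (ψ x).fst = (Ψ (algebraMap T Q x)).fst
    rw [hΨ]
  rw [h1, hD']
  show (Ψ (algebraMap T Q x)).snd = _
  rw [hΨ]

theorem st_LDD (hD : ST_DEREXT) : ST_LDD := by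
  classical
  intro k K R _ _ _ _ _ _ _ _ _ F hF α hα hαk
  -- the derivation of `F`
  have htr : Transcendental k (⟨α, hα⟩ : F) := by
    intro halg
    apply hαk
    obtain ⟨c, hc⟩ := minpoly.mem_range_of_degree_eq_one k _
      (IsAlgClosed.degree_eq_one_of_irreducible k (minpoly.irreducible halg.isIntegral))
    exact ⟨c, congrArg (fun z : F => (z : R)) hc⟩
  obtain ⟨d1, hd1, hd1α⟩ := (hD k F 0).2 _ htr 1
  simp only [Derivation.zero_apply] at hd1
  -- the two homomorphisms
  let j := Algebra.TensorProduct.productLeftAlgHom (Algebra.ofId F R)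
      (IsScalarTower.toAlgHom k K R)
  have hj : Function.Injective j := LDD_inj F hF
  have : IsDomain (F ⊗[k] K) := Function.Injective.isDomain j.toRingHom hj
  let fF : F →ₐ[k] TrivSqZeroExt R R :=
    { LDD_hom (R := R) d1 with
      commutes' := by
        intro c
        show TrivSqZeroExt.inl (algebraMap F R (algebraMap k F c)) +
          TrivSqZeroExt.inr (algebraMap F R (d1 (algebraMap k F c))) = _
        rw [hd1, map_zero, TrivSqZeroExt.inr_zero, add_zero]
        rfl }
  let fK : K →ₐ[k] TrivSqZeroExt R R :=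
    (TrivSqZeroExt.inlAlgHom k R R).comp (IsScalarTower.toAlgHom k K R)
  let ψ : F ⊗[k] K →ₐ[k] TrivSqZeroExt R R := Algebra.TensorProduct.productMap fF fK
  have hψ : ∀ x, (ψ x).fst = j x := by
    intro x
    have h1 : ((TrivSqZeroExt.fstHom k R R).comp ψ) = (j.restrictScalars k) := by
      apply Algebra.TensorProduct.ext'
      intro a b
      show (ψ (a ⊗ₜ b)).fst = j (a ⊗ₜ b)
      rw [Algebra.TensorProduct.productMap_apply_tmul,
        Algebra.TensorProduct.lift_tmul]
      show (TrivSqZeroExt.fst (_ * _)) = _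
      rw [TrivSqZeroExt.fst_mul]
      show (TrivSqZeroExt.fst (TrivSqZeroExt.inl (algebraMap F R a) +
          TrivSqZeroExt.inr (algebraMap F R (d1 a)))) * (algebraMap K R b) = _
      rw [TrivSqZeroExt.fst_add, TrivSqZeroExt.fst_inl, TrivSqZeroExt.fst_inr, add_zero]
      rfl
    exact congrArg (fun φ => φ x) h1
  let ψR : F ⊗[k] K →+* TrivSqZeroExt R R := ψ.toRingHom
  have : CharZero R := charZero_of_injective_algebraMap (algebraMap k R).injective
  obtain ⟨D', hD'⟩ := LDD_frac hD (F ⊗[k] K) (FractionRing (F ⊗[k] K)) R ψR (fun x hx => by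
    apply hj
    rw [map_zero]
    show j x = 0
    rw [← hψ]
    exact hx)
  have hval : ∀ x : F ⊗[k] K, D' (j x) = (ψ x).snd := by
    intro x
    rw [← hψ]
    exact hD' x
  have hK : ∀ b : K, D' (algebraMap K R b) = 0 := by
    intro b
    have h1 := hval (1 ⊗ₜ b)
    rw [Algebra.TensorProduct.productMap_apply_tmul, map_one, one_mul,
      Algebra.TensorProduct.lift_tmul, map_one, one_mul] at h1
    exact h1
  have hFv : ∀ a : F, D' (a : R) = (d1 a : R) := by
    intro a
    have h1 := hval (a ⊗ₜ 1)
    rw [Algebra.TensorProduct.productMap_apply_tmul, map_one, mul_one,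
      Algebra.TensorProduct.lift_tmul, map_one, mul_one] at h1
    have h2 : (fF a).snd = (d1 a : R) := by
      show (TrivSqZeroExt.snd (TrivSqZeroExt.inl (algebraMap F R a) +
          TrivSqZeroExt.inr (algebraMap F R (d1 a)))) = _
      rw [TrivSqZeroExt.snd_add, TrivSqZeroExt.snd_inl, TrivSqZeroExt.snd_inr, zero_add]
      rfl
    rw [h2] at h1
    exact h1
  let D : Derivation K R R := Derivation.mk'
    { toFun := fun r => D' r
      map_add' := fun a b => map_add D' a b
      map_smul' := fun c r => by
        rw [Algebra.smul_def, Derivation.leibniz, hK, smul_zero, add_zero]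
        exact (Algebra.smul_def c (D' r)).symm }
    (fun a b => D'.leibniz a b)
  refine ⟨D, fun φ hφ => ?_, ?_⟩
  · show D' φ ∈ F
    rw [hFv ⟨φ, hφ⟩]
    exact (d1 ⟨φ, hφ⟩).2
  · show D' α = 1
    rw [hFv ⟨α, hα⟩, hd1α]
    rfl

end Pool.Agent.Helper8.SPV
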